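import Mathlib

/-!
# Free unions of level sets of an additive statistic: at most `M ^ 2 * 2 ^ n` vectors

`olson`: a set in `F_3^n` without two elements that differ by a nonzero zero-one vector has at most `2 ^ n` elements
(the matrix `∏ i, (1 + z i - x i)` is the identity matrix on it and has rank at most `2 ^ n`).

`main`: `f x = ∑ i, w i (x i)` has `M` values. Group the elements `x` of `A` by the pair `(f x, f (x + 1))`. If `x` and `x + y`,
`y` a nonzero zero-one vector, are in the same group, then `f (x + 2 y) - f (x + y) = f (x + y + 1) - f (x + 1) = 0`, so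
`x`, `x + y`, `x + 2 y` are in one level set, hence in `A`.
-/

set_option autoImplicit false

namespace Pool.Agent.OL36

open Finset

theorem olson {n : ℕ} (A : Finset (Fin n → ZMod 3))
    (hA : ∀ x ∈ A, ∀ z ∈ A, x ≠ z → ¬ ∀ i, z i - x i = 0 ∨ z i - x i = 1) :
    A.card ≤ 2 ^ n := by
  classical
  let B : Matrix A (Finset (Fin n)) (ZMod 3) := fun x S => ∏ i ∈ univ \ S, (1 - x.1 i)
  let C : Matrix (Finset (Fin n)) A (ZMod 3) := fun S z => ∏ i ∈ S, z.1 i
  have h : B * C = 1 := by
    ext x z
    have h1 : (B * C) x z = ∏ i, (z.1 i + (1 - x.1 i)) := by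
      rw [Matrix.mul_apply, prod_add, powerset_univ]
      exact sum_congr rfl fun S _ => mul_comm _ _
    rw [h1, Matrix.one_apply]
    by_cases hxz : x = z
    · rw [if_pos hxz, hxz]
      refine prod_eq_one fun i _ => ?_
      ring
    · rw [if_neg hxz]
      have h2 := hA x.1 x.2 z.1 z.2 fun e => hxz (Subtype.ext e)
      push Not at h2
      obtain ⟨i, hi0, hi1⟩ := h2
      refine prod_eq_zero (mem_univ i) ?_
      have h3 : ∀ a : ZMod 3, a ≠ 0 → a ≠ 1 → a + 1 = 0 := by decide
      have h4 := h3 _ hi0 hi1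
      rw [← h4]
      ring
  have h5 : (1 : Matrix A A (ZMod 3)).rank ≤ Fintype.card (Finset (Fin n)) := by
    rw [← h]
    exact (Matrix.rank_mul_le_left B C).trans (Matrix.rank_le_card_width B)
  rw [Matrix.rank_one, Fintype.card_coe, Fintype.card_finset, Fintype.card_fin] at h5
  exact h5

theorem main {n : ℕ} {G : Type} [AddCommGroup G] [DecidableEq G] (w : Fin n → ZMod 3 → G)
    (A : Finset (Fin n → ZMod 3))
    (hA : ∀ x d : Fin n → ZMod 3, (∀ i, d i = 0 ∨ d i = 1) → d ≠ 0 →
      ¬ (x ∈ A ∧ x + d ∈ A ∧ x + 2 • d ∈ A))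
    (hw : ∀ x y : Fin n → ZMod 3, ∑ i, w i (x i) = ∑ i, w i (y i) → x ∈ A → y ∈ A) :
    A.card ≤ (univ.image fun x : Fin n → ZMod 3 => ∑ i, w i (x i)).card ^ 2 * 2 ^ n := by
  classical
  set V := univ.image fun x : Fin n → ZMod 3 => ∑ i, w i (x i) with hV
  let I : (Fin n → ZMod 3) → G × G := fun x => (∑ i, w i (x i), ∑ i, w i (x i + 1))
  have hmaps : ∀ x ∈ A, I x ∈ V ×ˢ V := by
    intro x _
    rw [mem_product]
    exact ⟨mem_image_of_mem _ (mem_univ x), mem_image.2 ⟨x + 1, mem_univ _, rfl⟩⟩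
  have hfib : ∀ c ∈ V ×ˢ V, (A.filter fun x => I x = c).card ≤ 2 ^ n := by
    intro c _
    refine olson _ fun x hx z hz hxz hd => ?_
    obtain ⟨hxA, hxc⟩ := mem_filter.1 hx
    obtain ⟨hzA, hzc⟩ := mem_filter.1 hz
    have hI : I z = I x := hzc.trans hxc.symm
    have e1 : ∑ i, w i (z i) = ∑ i, w i (x i) := congrArg Prod.fst hI
    have e2 : ∑ i, w i (z i + 1) = ∑ i, w i (x i + 1) := congrArg Prod.snd hI
    have hz' : x + (z - x) = z := add_sub_cancel x z
    refine hA x (z - x) (fun i => hd i) (fun h => hxz (sub_eq_zero.1 h).symm) ⟨hxA, ?_, ?_⟩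
    · rw [hz']
      exact hzA
    · refine hw x _ ?_ hxA
      have e3 : ∑ i, w i ((x + 2 • (z - x)) i) - ∑ i, w i (z i) =
          ∑ i, w i (z i + 1) - ∑ i, w i (x i + 1) := by
        rw [← sum_sub_distrib, ← sum_sub_distrib]
        refine sum_congr rfl fun i _ => ?_
        have e4 : (x + 2 • (z - x)) i = x i + 2 * (z i - x i) := by
          simp [two_mul, two_smul]
        rw [e4]
        rcases hd i with h | h
        · have e5 : z i = x i := sub_eq_zero.1 h
          rw [e5]
          simp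
        · have e5 : z i = x i + 1 := by rw [← h]; ring
          rw [e5]
          have e6 : x i + 2 * (x i + 1 - x i) = x i + 1 + 1 := by ring
          rw [e6]
      rw [e2, sub_self, sub_eq_zero, e1] at e3
      exact e3.symm
  have h := card_le_mul_card_image_of_maps_to hmaps (2 ^ n) hfib
  rw [card_product] at h
  calc A.card ≤ 2 ^ n * (V.card * V.card) := h
    _ = V.card ^ 2 * 2 ^ n := by ring

end Pool.Agent.OL36
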